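import Pool.Agent.Results.MP_90d181_ag.IndependentDeterminants
import Pool.Agent.Results.MP_802513_ag.HodgeFromFrobenius
import Pool.Agent.X274.DI.Sim

/-!
# A common `ℚ`-form of the monodromy groups for products of powers of abelian varieties with
# independent determinants

Let `A_0, ..., A_r` be abelian varieties over a finitely generated subfield `k` of the complex numbers
(for example over a number field), `A` the product of powers of them, `W_i = H^1(A_i(ℂ), ℚ)`. A number
field `E_i`, Galois over `ℚ` (`E_i = ℚ` is allowed), acts on `A_i` (up to isogeny), with the adjoints `bar a`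
(`a ∈ E_i`) for the form `J_i` of a polarization: either `bar = 1` (`E_i` is totally real), or `E_i` is a CM
field and `bar` is the complex conjugation. Let `G` be the algebraic group over `ℚ` of the families
`g_i ∈ GL(W_i)` which commute with `E_i` and are similitudes of the `J_i` with a common multiplier `κ`; it is
a connected reductive subgroup of the group of similitudes of `(⊕ W_i, ⊕ J_i)`.

**Theorem.** Suppose that
(1) for every `i` there is a place `v` such that the roots of `P_{i,v}` (the characteristic polynomial of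
the Frobenius element on `A_i`) are simple and `x / y = z / u` for roots `x ≠ y`, `z`, `u` only in the trivial
cases;
(2) for every `i` the conditions on finitely many polynomials `P_{i,v}` of the definition `EnoughPlaces`
hold;
(3) for `i ≠ j` there is a place `v` such that the roots of `P_{i,v}` are simple and no quotient of two
different roots of `P_{i,v}` is a quotient of two roots of `P_{j,v}`;
(4) there is a place `v`, with norm `q`, such that a product of conjugates `τ(d_{i,v})` of the determinants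
of Frobenius over the CM fields `E_i` is a root of unity times a power of `q` only if the embeddings `τ`
and `τ ∘ bar` of `E_i` occur equally often in it, for all `i` and `τ`.
Then for all primes `ℓ` outside of a set of natural density zero **the `ℓ`-adic monodromy group of every
finite extension of the ground field has the same tensor invariants as `G`**: for every open subgroup `U` of
the Galois group, the multilinear forms `φ` with `φ(σ v) = χ(σ) ^ m φ(v)` for `σ ∈ U` are exactly the
combinations with coefficients in `ℚ_ℓ` of the rational forms `c` on which `G` acts by the `m`-th power of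
the multiplier. Both groups are reductive, `G_ℓ ⊆ G_{ℚ_ℓ}`, and a reductive group is determined by its
invariants: this is the equality `(G_ℓ)° = G_{ℚ_ℓ}`, with a group `G` over `ℚ` which does not depend on `ℓ`.
If the theorem of Larsen and Pink is given (the equality for one `ℓ` implies the equality for all `ℓ`, as
`(G_ℓ)° ⊆ MT(A) ⊆ G` by Deligne), then **it holds for all `ℓ`**.

All hypotheses can be checked on finitely many reductions. The type IV is allowed, and there is no
condition on the dimensions or the endomorphism rings. In the starting results for this problem only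
the types I and II occur, or the common form is derived from a Frobenius element of a special kind (slopes
or few multiplicative relations between its eigenvalues), or from a place of bad reduction.

In the Lean statement `W_i = ℚ ^ (N_i)` and `form L c` is the multilinear form on `⊕ L ^ (N_i)` with the
rational coefficients `c`; `IsMotivicFamily` with `w_i = 1` collects the properties of the representations on
`H^1(A_i, ℚ_ℓ)` (the Weil pairing, the polynomials of the geometric Frobenius elements). The group `Γ` is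
the Galois group of `k` (or a quotient of it which acts), and `s` comes from a closed point of a model of
`k`, with residue field `K` (if `k` is a number field, then `K = k` and `s = id`).
-/

set_option autoImplicit false

namespace Pool.Agent.Results.MP_e965d0_ag.CommonFormAllTypes

open Matrix Polynomial Filter Topology NumberField IsDedekindDomain
open Pool.Agent.Results.MP_938ce2_ag.DeterminantClasses (AbsoluteGaloisGroup IsFrobenius
  IsMotivicFamily IsGenericPlace EnoughPlaces IsIndependent HasDensityZero)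
open Pool.Agent.Results.MP_802513_ag.HodgeFromFrobenius (form adic)
open Pool.Agent.Results.MP_90d181_ag.IndependentDeterminants (HasDeterminant AreIndependent
  IsPairingProduct AllTateClassesFromPairings)

/-- the matrix over `L` with the same entries -/
def baseChange (L : Type) [Field L] {N : ℕ} (A : Matrix (Fin N) (Fin N) ℚ) : Matrix (Fin N) (Fin N) L :=
  A.map fun x : ℚ => (x : L)

/-- the `L`-valued points `g = (g_i)` of the algebraic group `G` over `ℚ`, with multiplier `κ`: the matrices
`g_i` commute with the field `E i` and are similitudes of the forms `J i` with the common multiplier `κ` -/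
def IsInGroup {r : ℕ} {N : Fin (r + 1) → ℕ} {E : Fin (r + 1) → Type}
    (ε : ∀ i, E i → Matrix (Fin (N i)) (Fin (N i)) ℚ)
    (J : ∀ i, Matrix (Fin (N i)) (Fin (N i)) ℚ) (L : Type) [Field L] (κ : L)
    (g : ∀ i, Matrix (Fin (N i)) (Fin (N i)) L) : Prop :=
  κ ≠ 0 ∧ ∀ i, (g i)ᵀ * baseChange L (J i) * g i = κ • baseChange L (J i) ∧
    ∀ a, baseChange L (ε i a) * g i = g i * baseChange L (ε i a)

/-- the group `G` acts on the rational form with the coefficients `c` by the `m`-th power of the
multiplier (over all fields `L` of characteristic zero) -/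
def IsInvariantOfGroup {r : ℕ} {N : Fin (r + 1) → ℕ} {E : Fin (r + 1) → Type}
    (ε : ∀ i, E i → Matrix (Fin (N i)) (Fin (N i)) ℚ)
    (J : ∀ i, Matrix (Fin (N i)) (Fin (N i)) ℚ) {k : ℕ} (m : ℤ)
    (c : (Fin k → Σ i, Fin (N i)) → ℚ) : Prop :=
  ∀ (L : Type) [Field L] [CharZero L] (κ : L) (g : ∀ i, Matrix (Fin (N i)) (Fin (N i)) L),
    IsInGroup ε J L κ g → ∀ v, form L c (fun j i => g i *ᵥ v j i) = κ ^ m * form L c v

/-- the groups `G` over `ℚ` and `G_ℓ` over `ℚ_ℓ` (for every finite extension of the ground field, that is for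
every open subgroup `U` of `Γ`) have the same invariants in the tensor powers: a multilinear form `φ`
on the direct sum of the `ℚ_ℓ ^ (N i)` satisfies `φ(σ v) = χ(σ) ^ m φ(v)` for `σ ∈ U` if and only if it is a
combination with coefficients in `ℚ_ℓ` of rational forms on which `G` acts by the `m`-th power of the
multiplier -/
def HasSameInvariants {Γ : Type} [Group Γ] [TopologicalSpace Γ] {r : ℕ}
    {N : Fin (r + 1) → ℕ} {E : Fin (r + 1) → Type}
    (ε : ∀ i, E i → Matrix (Fin (N i)) (Fin (N i)) ℚ)
    (J : ∀ i, Matrix (Fin (N i)) (Fin (N i)) ℚ) (ℓ : ℕ) [Fact ℓ.Prime]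
    (χ : Γ →* ℚ_[ℓ]) (ρ : ∀ i, Γ →* Matrix (Fin (N i)) (Fin (N i)) ℚ_[ℓ]) : Prop :=
  ∀ (U : Subgroup Γ), IsOpen (U : Set Γ) → ∀ (k : ℕ) (m : ℤ)
    (φ : MultilinearMap ℚ_[ℓ] (fun _ : Fin k => ∀ i, Fin (N i) → ℚ_[ℓ]) ℚ_[ℓ]),
    (∀ σ ∈ U, ∀ v, φ (fun j i => ρ i σ *ᵥ v j i) = χ σ ^ m * φ v) ↔
      (fun v => φ v) ∈ Submodule.span ℚ_[ℓ] {f : (Fin k → ∀ i, Fin (N i) → ℚ_[ℓ]) → ℚ_[ℓ] |
        ∃ c : (Fin k → Σ i, Fin (N i)) → ℚ,
          IsInvariantOfGroup ε J m c ∧ f = fun v => form ℚ_[ℓ] c v}

theorem val_of_product {r : ℕ} {N : Fin (r + 1) → ℕ} (ℓ : ℕ) [Fact ℓ.Prime]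
    {E : Fin (r + 1) → IntermediateField ℚ (AlgebraicClosure ℚ)}
    (ε : ∀ i, E i →+* Matrix (Fin (N i)) (Fin (N i)) ℚ)
    (J : ∀ i, Matrix (Fin (N i)) (Fin (N i)) ℚ) {k : ℕ} {A : Finset (Fin k)}
    {f : (Fin k → ∀ i, Fin (N i) → ℚ_[ℓ]) → ℚ_[ℓ]}
    (hf : IsPairingProduct ℓ (fun i => ((Rat.castHom ℚ_[ℓ]).mapMatrix).comp (ε i))
      (fun i => adic ℓ (J i)) A f) :
    ∃ F : ∀ (L : Type) [Field L] [CharZero L], (Fin k → ∀ i, Fin (N i) → L) → L,
      X274.DI.Val k (fun i (a : E i) => ε i a) J A F ∧ f = F ℚ_[ℓ] := by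
  induction hf with
  | one => exact ⟨fun _ _ _ _ => 1, X274.DI.Val.one, rfl⟩
  | @pairing A f i a j j' hne hj hj' h ih =>
    obtain ⟨F, hF, hfF⟩ := ih
    have h1 := X274.DI.Val.pair (ε := fun i (a : E i) => ε i a) (J := J) i a j j' hne hj hj' hF
    refine ⟨_, h1, ?_⟩
    funext v
    rw [hfF]
    rfl

/-- **A common `ℚ`-form of the monodromy groups.** -/
theorem result (K : Type) [Field K] [NumberField K] (Γ : Type) [Group Γ] [TopologicalSpace Γ]
    [IsTopologicalGroup Γ] [CompactSpace Γ] (s : AbsoluteGaloisGroup K →* Γ) (hs : Continuous s)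
    (S : Set (HeightOneSpectrum (𝓞 K))) (hS : S.Finite)
    (r : ℕ) (N n : Fin (r + 1) → ℕ)
    (P : Fin (r + 1) → HeightOneSpectrum (𝓞 K) → ℚ[X])
    (χ : ∀ (ℓ : ℕ) [Fact ℓ.Prime], Γ →* ℚ_[ℓ])
    (ρ : ∀ (ℓ : ℕ) [Fact ℓ.Prime] (i : Fin (r + 1)), Γ →* Matrix (Fin (N i)) (Fin (N i)) ℚ_[ℓ])
    (J : ∀ i : Fin (r + 1), Matrix (Fin (N i)) (Fin (N i)) ℚ)
    (hρ : ∀ (ℓ : ℕ) [Fact ℓ.Prime], IsMotivicFamily K s N (fun _ => 1) ℓ (χ ℓ) (ρ ℓ)
      (fun i => adic ℓ (J i)) S P)
    -- the coefficients
    (E : Fin (r + 1) → IntermediateField ℚ (AlgebraicClosure ℚ)) [∀ i, FiniteDimensional ℚ (E i)]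
    [∀ i, Normal ℚ (E i)] (bar : ∀ i, E i →+* E i)
    (hJ : ∀ i, (∀ a, bar i a = a) → (J i)ᵀ = -J i)
    (hn : ∀ i, 0 < n i) (hN : ∀ i, N i = n i * Module.finrank ℚ (E i))
    (ε : ∀ i : Fin (r + 1), E i →+* Matrix (Fin (N i)) (Fin (N i)) ℚ)
    (hεJ : ∀ i a, (ε i a)ᵀ * J i = J i * ε i (bar i a))
    (hερ : ∀ (ℓ : ℕ) [Fact ℓ.Prime] (i : Fin (r + 1)) (a : E i) (γ : Γ),
      adic ℓ (ε i a) * ρ ℓ i γ = ρ ℓ i γ * adic ℓ (ε i a))
    -- the places
    (hgen : ∀ i, ∃ v, IsGenericPlace S (P i) 1 v)
    (hplaces : ∀ i, EnoughPlaces (E i) (n i) (N i) S (P i))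
    (hind : ∀ i j, i ≠ j → IsIndependent S (P i) (P j))
    -- the determinants
    (v : HeightOneSpectrum (𝓞 K)) (hv : v ∉ S) (d : ∀ i, E i)
    (hd : ∀ (ℓ : ℕ) [Fact ℓ.Prime], (ℓ : 𝓞 K) ∉ v.asIdeal →
      ∀ σ : AbsoluteGaloisGroup K, IsFrobenius v σ → ∀ i, (∃ a, bar i a ≠ a) →
        HasDeterminant (n i) (((Rat.castHom ℚ_[ℓ]).mapMatrix).comp (ε i)) (ρ ℓ i (s σ⁻¹)) (d i))
    (hdi : AreIndependent bar d (Ideal.absNorm v.asIdeal)) :
    HasDensityZero {ℓ | ∃ _ : Fact ℓ.Prime,
        ¬ HasSameInvariants (fun i (a : E i) => ε i a) J ℓ (χ ℓ) (ρ ℓ)} ∧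
      -- the theorem of Larsen and Pink implies the statement for all primes
      (((∃ (ℓ : ℕ) (_ : Fact ℓ.Prime),
            HasSameInvariants (fun i (a : E i) => ε i a) J ℓ (χ ℓ) (ρ ℓ)) →
          ∀ (ℓ : ℕ) [Fact ℓ.Prime],
            HasSameInvariants (fun i (a : E i) => ε i a) J ℓ (χ ℓ) (ρ ℓ)) →
        ∀ (ℓ : ℕ) [Fact ℓ.Prime],
          HasSameInvariants (fun i (a : E i) => ε i a) J ℓ (χ ℓ) (ρ ℓ)) := by
  classical
  have hmain := MP_90d181_ag.IndependentDeterminants.result K Γ s hs S hS r N n (fun _ => 1)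
    ⟨0, one_ne_zero⟩ P χ ρ
    (fun ℓ _ i => adic ℓ (J i)) hρ E bar (fun ℓ _ i hi => by
      show adic ℓ (J i)ᵀ = -adic ℓ (J i)
      rw [hJ i hi]
      ext a b
      simp [adic]) hn hN
    (fun ℓ _ i => ((Rat.castHom ℚ_[ℓ]).mapMatrix).comp (ε i)) (fun ℓ _ i => by
      refine ⟨hερ ℓ i, fun a => ?_, fun a => ?_⟩
      · have h1 := congrArg (adic ℓ) (hεJ i a)
        rw [MP_802513_ag.HodgeFromFrobenius.adic_eq, MP_802513_ag.HodgeFromFrobenius.adic_eq,
          map_mul, map_mul] at h1
        exact h1
      · have h1 := X274.HD.trace_of_field (hN i) (ε i) a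
        have h2 : (adic ℓ (ε i a)).trace = (((ε i a).trace : ℚ) : ℚ_[ℓ]) := by
          simp [adic, Matrix.trace]
        show (adic ℓ (ε i a)).trace = _
        rw [h2, h1]
        push_cast
        rfl) hgen hplaces hind v hv d hd hdi
  have hbig : Y142.ZI.DensityZero {ℓ : ℕ | ℓ ≤ Ideal.absNorm v.asIdeal} :=
    X274.TH.density_finite _
  have hkey : ∀ (ℓ : ℕ) [Fact ℓ.Prime], (ℓ : 𝓞 K) ∉ v.asIdeal →
      AllTateClassesFromPairings ℓ (χ ℓ) (ρ ℓ)
      (fun i => ((Rat.castHom ℚ_[ℓ]).mapMatrix).comp (ε i)) (fun i => adic ℓ (J i)) →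
      HasSameInvariants (fun i (a : E i) => ε i a) J ℓ (χ ℓ) (ρ ℓ) := by
    intro ℓ _ hvℓ hall U hU k m φ
    -- the Galois group acts by elements of the group
    obtain ⟨σ₀, hσ₀⟩ := Pool.Agent.W401.Frob.exists_frob v
    have hfr := (hρ ℓ).2.2 v hv hvℓ σ₀ hσ₀
    have hsim : ∀ σ i, (ρ ℓ i σ)ᵀ * X274.DI.cst ℚ_[ℓ] (J i) * ρ ℓ i σ =
        χ ℓ σ • X274.DI.cst ℚ_[ℓ] (J i) := by
      intro σ i
      have h := ((hρ ℓ).2.1 i).2.2.2 σ
      rw [zpow_one] at h
      exact h
    have hχ0 : ∀ σ, χ ℓ σ ≠ 0 := by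
      intro σ h
      have h1 : χ ℓ (σ * σ⁻¹) = 0 := by rw [map_mul, h, zero_mul]
      rw [mul_inv_cancel, map_one] at h1
      exact one_ne_zero h1
    constructor
    · intro hφ
      have h1 := hall k m φ U hU hφ
      by_cases hk : ∃ p, k = 2 * p
      · obtain ⟨p, hp⟩ := hk
        -- the multiplier of the pairings
        have h2 : ∀ σ, ∀ f ∈ Submodule.span ℚ_[ℓ]
            {f : (Fin k → ∀ i, Fin (N i) → ℚ_[ℓ]) → ℚ_[ℓ] |
              IsPairingProduct ℓ (fun i => ((Rat.castHom ℚ_[ℓ]).mapMatrix).comp (ε i))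
                (fun i => adic ℓ (J i)) Finset.univ f},
            ∀ v, f (fun j i => ρ ℓ i σ *ᵥ v j i) = χ ℓ σ ^ p * f v := by
          intro σ f hf
          induction hf using Submodule.span_induction with
          | mem f hf =>
            intro v
            obtain ⟨F, hF, rfl⟩ := val_of_product ℓ ε J hf
            exact hF.sim ℚ_[ℓ] (χ ℓ σ) (fun i => ρ ℓ i σ) (hsim σ) (fun i a => hερ ℓ i a σ) v p
              (by rw [Finset.card_univ, Fintype.card_fin, hp])
          | zero => intro v; simp
          | add f g _ _ hf hg =>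
            intro v
            rw [Pi.add_apply, Pi.add_apply, hf v, hg v, mul_add]
          | smul c f _ hf =>
            intro v
            rw [Pi.smul_apply, Pi.smul_apply, hf v, smul_eq_mul, smul_eq_mul]
            ring
        by_cases h0 : φ = 0
        · rw [h0]
          exact Submodule.zero_mem _
        · -- the twist
          have hm : m = p := by
            obtain ⟨v₁, hv₁⟩ : ∃ v₁, φ v₁ ≠ 0 := by
              by_contra hno
              push Not at hno
              exact h0 (MultilinearMap.ext hno)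
            have hfin : U.FiniteIndex := by
              have : Finite (Γ ⧸ U) := Subgroup.quotient_finite_of_isOpen U hU
              exact Subgroup.finiteIndex_of_finite_quotient
            obtain ⟨e, he, -, heU⟩ :=
              Subgroup.exists_pow_mem_of_index_ne_zero hfin.index_ne_zero (s σ₀⁻¹)
            have h3 := hφ _ heU v₁
            have h4 := h2 (s σ₀⁻¹ ^ e) _ h1 v₁
            rw [h4] at h3
            have h5 := mul_right_cancel₀ hv₁ h3
            rw [map_pow, hfr.1, ← Nat.cast_pow, ← _root_.zpow_natCast _ p] at h5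
            have hq : 1 < Ideal.absNorm v.asIdeal := by
              have h6 : Ideal.absNorm v.asIdeal ≠ 0 := by
                rw [Ne, Ideal.absNorm_eq_zero_iff]
                exact v.ne_bot
              have h7 : Ideal.absNorm v.asIdeal ≠ 1 := by
                rw [Ne, Ideal.absNorm_eq_one_iff]
                exact v.isPrime.ne_top
              omega
            have hqe : 1 < Ideal.absNorm v.asIdeal ^ e := one_lt_pow₀ hq he.ne'
            have h8 : ((Ideal.absNorm v.asIdeal ^ e : ℕ) : ℚ) ^ (p : ℤ) =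
                ((Ideal.absNorm v.asIdeal ^ e : ℕ) : ℚ) ^ m := by
              have h9 : ((((Ideal.absNorm v.asIdeal ^ e : ℕ) : ℚ) ^ (p : ℤ) : ℚ) : ℚ_[ℓ]) =
                  ((((Ideal.absNorm v.asIdeal ^ e : ℕ) : ℚ) ^ m : ℚ) : ℚ_[ℓ]) := by
                rw [Rat.cast_zpow, Rat.cast_zpow, Rat.cast_natCast]
                exact h5
              exact Rat.cast_injective h9
            exact (zpow_right_injective₀ (by positivity) (by
              have : (1 : ℚ) < ((Ideal.absNorm v.asIdeal ^ e : ℕ) : ℚ) := by exact_mod_cast hqe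
              exact this.ne') h8).symm
          refine Submodule.span_mono ?_ h1
          intro f hf
          obtain ⟨F, hF, rfl⟩ := val_of_product ℓ ε J hf
          refine ⟨fun t => F ℚ fun j => X274.HD.bas (t j), ?_, ?_⟩
          · intro L _ _ κ g hg v
            have h3 := hF.coeff L fun j i => g i *ᵥ v j i
            have h4 := hF.coeff L v
            have h5 := hF.sim L κ g (fun i => (hg.2 i).1) (fun i a => (hg.2 i).2 a) v p
              (by rw [Finset.card_univ, Fintype.card_fin, hp])
            show form L _ _ = _ * form L _ _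
            unfold form
            rw [← h3, ← h4, h5, hm, _root_.zpow_natCast]
          · funext v
            exact hF.coeff ℚ_[ℓ] v
      · -- there are no pairing products
        have h2 : {f : (Fin k → ∀ i, Fin (N i) → ℚ_[ℓ]) → ℚ_[ℓ] |
              IsPairingProduct ℓ (fun i => ((Rat.castHom ℚ_[ℓ]).mapMatrix).comp (ε i))
                (fun i => adic ℓ (J i)) Finset.univ f} = ∅ := by
          refine Set.eq_empty_iff_forall_notMem.2 fun f hf => hk ?_
          obtain ⟨F, hF, -⟩ := val_of_product ℓ ε J hf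
          obtain ⟨p, hp⟩ := hF.even
          rw [Finset.card_univ, Fintype.card_fin] at hp
          exact ⟨p, hp⟩
        rw [h2, Submodule.span_empty, Submodule.mem_bot] at h1
        rw [h1]
        exact Submodule.zero_mem _
    · -- the rational invariants are invariant under the Galois group
      intro h1 σ hσ v
      have h2 : ∀ f ∈ Submodule.span ℚ_[ℓ] {f : (Fin k → ∀ i, Fin (N i) → ℚ_[ℓ]) → ℚ_[ℓ] |
          ∃ c : (Fin k → Σ i, Fin (N i)) → ℚ,
            IsInvariantOfGroup (fun i (a : E i) => ε i a) J m c ∧ f = fun v => form ℚ_[ℓ] c v},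
          ∀ v, f (fun j i => ρ ℓ i σ *ᵥ v j i) = χ ℓ σ ^ m * f v := by
        intro f hf
        induction hf using Submodule.span_induction with
        | mem f hf =>
          obtain ⟨c, hc, rfl⟩ := hf
          exact hc ℚ_[ℓ] (χ ℓ σ) (fun i => ρ ℓ i σ)
            ⟨hχ0 σ, fun i => ⟨hsim σ i, fun a => hερ ℓ i a σ⟩⟩
        | zero => intro v; simp
        | add f g _ _ hf hg =>
          intro v
          rw [Pi.add_apply, Pi.add_apply, hf v, hg v, mul_add]
        | smul c f _ hf =>
          intro v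
          rw [Pi.smul_apply, Pi.smul_apply, hf v, smul_eq_mul, smul_eq_mul]
          ring
      exact h2 _ h1 v
  have hdens : HasDensityZero {ℓ | ∃ _ : Fact ℓ.Prime,
      ¬ HasSameInvariants (fun i (a : E i) => ε i a) J ℓ (χ ℓ) (ρ ℓ)} := by
    refine Y142.ZI.DensityZero.mono (hbig.union hmain) ?_
    rintro ℓ ⟨hp, hno⟩
    by_cases hℓ : ℓ ≤ Ideal.absNorm v.asIdeal
    · exact Or.inl hℓ
    · exact Or.inr ⟨hp, fun h => hno (hkey ℓ
        (Y142.ZO.not_mem_of_lt v hp.out (by omega)) h)⟩
  refine ⟨hdens, fun hLP => hLP ?_⟩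
  obtain ⟨ℓ, hℓ, hnot⟩ := MP_802513_ag.HodgeFromFrobenius.exists_good hdens
  have hp : Fact ℓ.Prime := ⟨hℓ⟩
  refine ⟨ℓ, hp, ?_⟩
  by_contra hno
  exact hnot ⟨hp, hno⟩

end Pool.Agent.Results.MP_e965d0_ag.CommonFormAllTypes
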