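import Pool.Agent.X259.U.U41

set_option autoImplicit false

/-!
# The Mumford-Tate group is the common `ℚ`-form of all `ℓ`-adic monodromy groups if one inequality
# holds, for one prime number and in one degree

Let `A` be an abelian variety of dimension `g ≥ 1`, of any type, over a number field `K` in the
field of complex numbers. `W = H_1(A(ℂ), ℚ)` is the rational homology, `T` the tangent space,
`per` the inclusion of `W` in `T`, and `ω₀` the Riemann form of a polarization. For all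
prime numbers `ℓ` the (compact) Galois group `Γ` of `K` acts on the Tate module `ℚ_ℓ ⊗ W` by the
continuous representation `ρ ℓ`, with the Weil pairing `ω ℓ`, the extension of `ω₀`; `χ ℓ` is the
cyclotomic character.

The classes in `H^1(A) ^ {⊗ 2 m} (m)` are the multilinear forms in `2 m` variables (indexed by
`Fin m × Fin 2`) in `W` or `ℚ_ℓ ⊗ W`. `TateSpace (ρ ℓ) (χ ℓ) m` is the space of the Tate classes
(fixed by an open subgroup of `Γ`), which are the invariants of the identity component `G_ℓ` of the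
Zariski closure of the image of `Γ`. As this group is reductive (Faltings) and contains the
homotheties (Bogomolov), a connected reductive subgroup `G` of `GSp(W)` over `ℚ` gives
`G_ℓ` over `ℚ_ℓ` if and only if the spaces `C m` of the classes which are invariant under `G` satisfy
`TateSpace (ρ ℓ) (χ ℓ) m = ℚ_ℓ ⊗ C m` for all `m` (`IsForm`). For the Mumford-Tate group the
`C m` are the spaces of the Hodge classes (`HodgeSpace`).

**Theorem.** Let `c ≥ 1` and `m ≥ 1024 c g ^ 3 (⌊log₂ (8 g c)⌋ + 1)` be integers.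

1. The following are equivalent:
   * **the Mumford-Tate group is the common `ℚ`-form of the groups `G_ℓ`, for all `ℓ`**;
   * for one `ℓ` and this `m`, the Tate classes in `H^1(A) ^ {⊗ 2 m} (m)` are combinations of Hodge
     classes;
   * `dim Tate_m ≤ (2 - 1 / c) dim Hodge_m` for one `ℓ` and this `m`.
2. Let `G` be a `ℚ`-form of `G_ℓ` for one prime number `ℓ`, given by its spaces `C m`. Then `G` is
   the Mumford-Tate group (`C = Hodge`), and so it is the form of `G_ℓ` for all `ℓ`, or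
   `dim C m > (2 - 1 / c) dim Hodge_m`.

So if the answer to the question is negative for `A`, or if there is a common `ℚ`-form which is not
the Mumford-Tate group, then for every prime number `ℓ` the Tate classes in
`H^1(A) ^ {⊗ 2 m} (m)` outnumber the Hodge classes almost by the factor two, for all `m` above an
explicit bound which is polynomial in `g` and does not depend on `ℓ`, `K` and the groups. (In
the limit `m → ∞` this is weak; the point is the explicit bound.)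

The hypotheses in `IsAbelian` are theorems for all abelian varieties over number fields:
`Semisimple`, `Faltings` (semisimplicity, endomorphisms; Faltings), `Deligne` (Hodge classes are Tate
classes), `Centres` (the Mumford-Tate conjecture holds for the centres; Vasiu, Ullmo-Yafaev),
and `LarsenPink` (the Mumford-Tate conjecture is true for all `ℓ` if it is true for one `ℓ`).

The proof. We embed `ℚ_ℓ` in the field of complex numbers. The complex Hodge tensors are the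
invariants of a compact group `G` of unitary symplectic matrices (positivity of the
polarization, first fundamental theorem, Haar integration). The complex Tate tensors are a
family which is stable under permutations, products and contractions. Suppose that there is a Tate
tensor `F ≠ 0` of degree four which is orthogonal to the invariants of `G`. The operator
`M = ∫ ⟨F, g F⟩ g dg` on the tensors of degree `2 m` is the average over `G` of `x ⊗ F^*`,
contracted with `F`; so its values are Tate tensors, and it vanishes after averaging over `G`, so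
`tr M ≤ ⟨F, F⟩ (dim Tate_m - dim Hodge_m)`. On the other hand, the trace is
`∫ ⟨F, g F⟩ (tr g) ^ {2 m} dg`; if the eigenvalues of `g` or `- g` have arguments at most `θ` then
`Re ⟨F, g F⟩ ≥ cos (4 θ) ⟨F, F⟩`, and otherwise `|tr g| ≤ 2 g - 2 (1 - cos θ)`, and
`dim Hodge_m ≥ (2 g) ^ {2 m} / (m + 1) ^ {4 g ^ 2}`, a contradiction for `(4 θ) ^ 2 = 1 / c`. So the
Tate classes in `H^1(A) ^ {⊗ 4} (2)` are combinations of Hodge classes; one of them is the Casimir
class of the Lie algebra of the Galois group, which decides the Mumford-Tate conjecture.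
-/

noncomputable section

namespace Pool.Agent.Results.MP_e965d0_ag.OneInequality

open Module TensorProduct Pool.Agent.H204R3.GP Pool.Agent.W516.MTD

section forms

variable {ℓ : ℕ} [Fact ℓ.Prime] {W T : Type} [AddCommGroup W] [Module ℚ W] [AddCommGroup T]
  [Module ℂ T] {Γ : Type} [Group Γ]

/-- The rational classes in `H^1(A) ^ {⊗ 2 m} (m)`. -/
abbrev RatForm (W : Type) [AddCommGroup W] [Module ℚ W] (m : ℕ) : Type :=
  MultilinearMap ℚ (fun _ : Fin m × Fin 2 => W) ℚ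

/-- The classes in `H^1(A, ℚ_ℓ) ^ {⊗ 2 m} (m)`. -/
abbrev Form (ℓ : ℕ) [Fact ℓ.Prime] (W : Type) [AddCommGroup W] [Module ℚ W] (m : ℕ) : Type :=
  MultilinearMap ℚ_[ℓ] (fun _ : Fin m × Fin 2 => ℚ_[ℓ] ⊗[ℚ] W) ℚ_[ℓ]

/-- `φ` is the extension of the rational class `ψ`. -/
def Extends {m : ℕ} (ψ : RatForm W m) (φ : Form ℓ W m) : Prop :=
  ∀ v : Fin m × Fin 2 → W, φ (fun l => (1 : ℚ_[ℓ]) ⊗ₜ[ℚ] v l) = ((ψ v : ℚ) : ℚ_[ℓ])

/-- The space of the linear combinations, with coefficients in `ℚ_ℓ`, of the classes in `C`. -/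
def Span (ℓ : ℕ) [Fact ℓ.Prime] {m : ℕ} (C : Submodule ℚ (RatForm W m)) :
    Submodule ℚ_[ℓ] (Form ℓ W m) :=
  Submodule.span ℚ_[ℓ] {φ : Form ℓ W m | ∃ ψ ∈ C, Extends ψ φ}

/-- The space of the Hodge classes in `H^1(A) ^ {⊗ 2 m} (m)`. -/
def HodgeSpace (per : W →+ T) (m : ℕ) : Submodule ℚ (RatForm W m) where
  carrier := {ψ | IsHodgeTensor per ψ}
  zero_mem' := ⟨0, fun _ => by simp, fun _ _ _ => rfl⟩
  add_mem' := by
    rintro a b ⟨A, hA, hA'⟩ ⟨B, hB, hB'⟩
    refine ⟨A + B, fun v => ?_, fun z hz u => ?_⟩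
    · rw [add_apply, add_apply, hA, hB]
      push_cast
      rfl
    · rw [add_apply, add_apply, hA' z hz, hB' z hz]
  smul_mem' := by
    rintro c a ⟨A, hA, hA'⟩
    refine ⟨(c : ℝ) • A, fun v => ?_, fun z hz u => ?_⟩
    · rw [smul_apply, smul_apply, hA, smul_eq_mul, smul_eq_mul]
      push_cast
      rfl
    · rw [smul_apply, smul_apply, hA' z hz]

/-- The space of the Tate classes in `H^1(A, ℚ_ℓ) ^ {⊗ 2 m} (m)`: the forms `φ` with
`φ (s v) = χ (s) ^ m φ (v)` for `s` in a subgroup of finite index of `Γ`. -/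
def TateSpace (ρ : Representation ℚ_[ℓ] Γ (ℚ_[ℓ] ⊗[ℚ] W)) (χ : Γ →* ℚ_[ℓ]) (m : ℕ) :
    Submodule ℚ_[ℓ] (Form ℓ W m) where
  carrier := {φ | IsTateTensor ρ χ m φ}
  zero_mem' := ⟨⊤, inferInstance, fun s _ v => by simp⟩
  add_mem' := by
    rintro a b ⟨Δ, hΔ, h⟩ ⟨Δ', hΔ', h'⟩
    refine ⟨Δ ⊓ Δ', inferInstance, fun s hs v => ?_⟩
    rw [add_apply, add_apply, h s hs.1, h' s hs.2, mul_add]
  smul_mem' := by
    rintro c a ⟨Δ, hΔ, h⟩
    refine ⟨Δ, hΔ, fun s hs v => ?_⟩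
    rw [smul_apply, smul_apply, h s hs, smul_eq_mul, smul_eq_mul, mul_left_comm]

/-- The dimension of a space of classes with coefficients in `ℚ_ℓ`. -/
def dimT {m : ℕ} (L : Submodule ℚ_[ℓ] (Form ℓ W m)) : ℕ := finrank ℚ_[ℓ] L

/-- The dimension of a space of rational classes. -/
def dimC {m : ℕ} (L : Submodule ℚ (RatForm W m)) : ℕ := finrank ℚ L

/-- The spaces `C m` of rational classes are a `ℚ`-form of the spaces of Tate classes. -/
def IsForm (ρ : Representation ℚ_[ℓ] Γ (ℚ_[ℓ] ⊗[ℚ] W)) (χ : Γ →* ℚ_[ℓ])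
    (C : ∀ m : ℕ, Submodule ℚ (RatForm W m)) : Prop :=
  ∀ m, TateSpace ρ χ m = Span ℓ (C m)

end forms

variable {W T Γ : Type} [AddCommGroup W] [Module ℚ W] [AddCommGroup T] [Module ℂ T] [Group Γ]

/-- The theorem of Larsen and Pink: if the Mumford-Tate group is the form of the monodromy group
for one prime number `ℓ` then this is true for all `ℓ`. -/
def LarsenPink (per : W →+ T)
    (ρ : ∀ (ℓ : ℕ) [Fact ℓ.Prime], Representation ℚ_[ℓ] Γ (ℚ_[ℓ] ⊗[ℚ] W))
    (χ : ∀ (ℓ : ℕ) [Fact ℓ.Prime], Γ →* ℚ_[ℓ]) : Prop :=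
  ∀ (ℓ : ℕ) [Fact ℓ.Prime], IsForm (ρ ℓ) (χ ℓ) (HodgeSpace per) →
    ∀ (p : ℕ) [Fact p.Prime], IsForm (ρ p) (χ p) (HodgeSpace per)

/-- An abelian variety of dimension `g` over a number field: the complex torus with a polarization, the
action of the Galois group on the Tate modules and the Weil pairings, and the theorems of
Faltings, Deligne, Larsen and Pink, and the theorem on centres. -/
structure IsAbelian [FiniteDimensional ℚ W] [TopologicalSpace Γ] (g : ℕ) (per : W →+ T)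
    (ω₀ : LinearMap.BilinForm ℚ W)
    (ρ : ∀ (ℓ : ℕ) [Fact ℓ.Prime], Representation ℚ_[ℓ] Γ (ℚ_[ℓ] ⊗[ℚ] W))
    (χ : ∀ (ℓ : ℕ) [Fact ℓ.Prime], Γ →* ℚ_[ℓ])
    (ω : ∀ (ℓ : ℕ) [Fact ℓ.Prime], LinearMap.BilinForm ℚ_[ℓ] (ℚ_[ℓ] ⊗[ℚ] W)) : Prop where
  pos : 1 ≤ g
  dim : finrank ℂ T = g
  rational : IsRationalStructure per
  riemann : IsRiemannForm per ω₀
  continuous : ∀ (ℓ : ℕ) [Fact ℓ.Prime] (v : ℚ_[ℓ] ⊗[ℚ] W)
    (f : ℚ_[ℓ] ⊗[ℚ] W →ₗ[ℚ_[ℓ]] ℚ_[ℓ]), Continuous fun s => f (ρ ℓ s v)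
  cyclotomic : ∀ (ℓ : ℕ) [Fact ℓ.Prime], Continuous (χ ℓ)
  weil : ∀ (ℓ : ℕ) [Fact ℓ.Prime] (u v : W),
    ω ℓ ((1 : ℚ_[ℓ]) ⊗ₜ[ℚ] u) ((1 : ℚ_[ℓ]) ⊗ₜ[ℚ] v) = ((ω₀ u v : ℚ) : ℚ_[ℓ])
  equivariant : ∀ (ℓ : ℕ) [Fact ℓ.Prime] (s : Γ) (u v : ℚ_[ℓ] ⊗[ℚ] W),
    ω ℓ (ρ ℓ s u) (ρ ℓ s v) = χ ℓ s * ω ℓ u v
  semisimple : ∀ (ℓ : ℕ) [Fact ℓ.Prime], Semisimple (ρ ℓ)
  faltings : ∀ (ℓ : ℕ) [Fact ℓ.Prime], Faltings per (ρ ℓ)
  deligne : ∀ (ℓ : ℕ) [Fact ℓ.Prime], Deligne per (ρ ℓ) (χ ℓ)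
  centres : ∀ (ℓ : ℕ) [Fact ℓ.Prime], Centres per (ρ ℓ) (χ ℓ)
  larsenPink : LarsenPink per ρ χ

section lemmas

variable {ℓ : ℕ} [Fact ℓ.Prime]

/-- Rational classes in the span of `C` are in `C`. -/
theorem rat_mem [FiniteDimensional ℚ W] {m : ℕ} {C C' : Submodule ℚ (RatForm W m)}
    (h : Span ℓ C ≤ Span ℓ C') : C ≤ C' := by
  classical
  intro ψ hψ
  let b := Module.finBasis ℚ W
  have hb : Extends (ℓ := ℓ) ψ (Pool.Agent.H204R3.SP.bcm (Ω := ℚ_[ℓ]) b ψ) := fun v => by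
    rw [← eq_ratCast (algebraMap ℚ ℚ_[ℓ])]
    exact Pool.Agent.H204R3.SP.bcm_one b ψ v
  have h1 : Pool.Agent.H204R3.SP.bcm (Ω := ℚ_[ℓ]) b ψ ∈ Span ℓ C' :=
    h (Submodule.subset_span ⟨ψ, hψ, hb⟩)
  obtain ⟨lam, hlam⟩ := LinearMap.exists_leftInverse_of_injective
    (Algebra.linearMap ℚ ℚ_[ℓ]) (LinearMap.ker_eq_bot.2 (algebraMap ℚ ℚ_[ℓ]).injective)
  have h2 := Pool.Agent.X259.Q.fcmp_mem C' h1 lam
  have h3 : Pool.Agent.W516.DR.fcmp lam (Pool.Agent.H204R3.SP.bcm (Ω := ℚ_[ℓ]) b ψ) = ψ := by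
    ext v
    rw [Pool.Agent.W516.DR.fcmp_apply, hb v]
    have h4 := LinearMap.congr_fun hlam (ψ v)
    rw [LinearMap.comp_apply, Algebra.linearMap_apply, eq_ratCast, LinearMap.id_apply] at h4
    exact h4
  rwa [h3] at h2

/-- The dimension of the span. -/
theorem dimT_span [FiniteDimensional ℚ W] {m : ℕ} (C : Submodule ℚ (RatForm W m)) :
    dimT (Span ℓ C) ≤ dimC C := Pool.Agent.X259.U.finrank_comb_le (ℓ := ℓ) C

end lemmas

/-- **One inequality decides.** -/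
theorem result [FiniteDimensional ℚ W] [TopologicalSpace Γ] [IsTopologicalGroup Γ]
    [CompactSpace Γ] (g : ℕ) (per : W →+ T) (ω₀ : LinearMap.BilinForm ℚ W)
    (ρ : ∀ (ℓ : ℕ) [Fact ℓ.Prime], Representation ℚ_[ℓ] Γ (ℚ_[ℓ] ⊗[ℚ] W))
    (χ : ∀ (ℓ : ℕ) [Fact ℓ.Prime], Γ →* ℚ_[ℓ])
    (ω : ∀ (ℓ : ℕ) [Fact ℓ.Prime], LinearMap.BilinForm ℚ_[ℓ] (ℚ_[ℓ] ⊗[ℚ] W))
    (hA : IsAbelian g per ω₀ ρ χ ω) (c m : ℕ) (hc : 1 ≤ c)
    (hm : 1024 * c * g ^ 3 * (Nat.log 2 (8 * g * c) + 1) ≤ m) :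
    List.TFAE [
      ∀ (ℓ : ℕ) [Fact ℓ.Prime], IsForm (ρ ℓ) (χ ℓ) (HodgeSpace per),
      ∃ (ℓ : ℕ) (_ : Fact ℓ.Prime), TateSpace (ρ ℓ) (χ ℓ) m = Span ℓ (HodgeSpace per m),
      ∃ (ℓ : ℕ) (_ : Fact ℓ.Prime),
        c * dimT (TateSpace (ρ ℓ) (χ ℓ) m) ≤ (2 * c - 1) * dimC (HodgeSpace per m)] ∧
    ∀ (ℓ : ℕ) [Fact ℓ.Prime] (C : ∀ m : ℕ, Submodule ℚ (RatForm W m)),
      IsForm (ρ ℓ) (χ ℓ) C →
      C = HodgeSpace per ∨ (2 * c - 1) * dimC (HodgeSpace per m) < c * dimC (C m) := by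
  classical
  have hd := Pool.Agent.X259.T.finrank_two hA.rational hA.dim
  have key : ∀ (ℓ : ℕ) [Fact ℓ.Prime],
      c * dimT (TateSpace (ρ ℓ) (χ ℓ) m) ≤ (2 * c - 1) * dimC (HodgeSpace per m) →
      IsForm (ρ ℓ) (χ ℓ) (HodgeSpace per) := by
    intro ℓ _ h m'
    refine le_antisymm (fun φ hφ => ?_) ?_
    · refine Pool.Agent.X259.Q.mem_of_fcmp (HodgeSpace per m') fun lam => ?_
      exact Pool.Agent.X259.U.tate_mt hA.pos hd hA.rational hA.riemann
        (fun v f => hA.continuous ℓ v f) (hA.cyclotomic ℓ) (fun u v => hA.weil ℓ u v)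
        (fun s u v => hA.equivariant ℓ s u v) (hA.semisimple ℓ) (hA.faltings ℓ) (hA.deligne ℓ)
        (hA.centres ℓ) hc hm (TT := TateSpace (ρ ℓ) (χ ℓ) m) (fun φ hφ => hφ) h m' φ hφ lam
    · refine Submodule.span_le.2 ?_
      rintro φ ⟨ψ, hψ, h⟩
      exact hA.deligne ℓ m' ψ hψ φ h
  refine ⟨?_, ?_⟩
  · tfae_have 1 → 2 := by
      intro h
      have : Fact (Nat.Prime 2) := ⟨Nat.prime_two⟩
      exact ⟨2, inferInstance, h 2 m⟩
    tfae_have 2 → 3 := by
      rintro ⟨ℓ, hℓ, h⟩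
      refine ⟨ℓ, hℓ, ?_⟩
      rw [h]
      exact Nat.mul_le_mul (by omega) (dimT_span _)
    tfae_have 3 → 1 := by
      rintro ⟨ℓ, hℓ, h⟩
      exact hA.larsenPink ℓ (key ℓ h)
    tfae_finish
  · intro ℓ _ C hC
    by_contra hcon
    rw [not_or, not_lt] at hcon
    obtain ⟨h1, h2⟩ := hcon
    refine h1 ?_
    have h3 : c * dimT (TateSpace (ρ ℓ) (χ ℓ) m) ≤ (2 * c - 1) * dimC (HodgeSpace per m) := by
      refine le_trans (Nat.mul_le_mul_left _ ?_) h2
      rw [hC m]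
      exact dimT_span _
    have h4 := key ℓ h3
    funext m'
    have h5 : Span ℓ (C m') = Span ℓ (HodgeSpace per m') := by rw [← hC m', h4 m']
    exact le_antisymm (rat_mem h5.le) (rat_mem h5.ge)

end Pool.Agent.Results.MP_e965d0_ag.OneInequality
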