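import Pool.Agent.X320.KR.Final

/-!
# Abelian varieties with supersingular reduction at a positive proportion of the places

Let `K` be a number field, `l` a prime, `E` a complete ultrametric extension of `ℚ_l` (for example `ℚ_l` itself), and
`ρ : G_K → GL_n(E)` a continuous semisimple representation. Suppose that for the places `v` in a set of
positive upper density every Frobenius element at `v` has a positive power on which `ρ` is a scalar matrix. We
prove that `ρ` is potentially abelian: there is an open normal subgroup of `G_K` with commutative image.

If `A` is an abelian variety over `K` and `v ∤ l` is a place of supersingular reduction, then a power of the Frobenius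
endomorphism at `v` is multiplication by an integer, for every `l`. So if the places of supersingular reduction have
positive upper density, the identity components of the groups `G_{l,K}^{alg}` are tori for all `l`. By the
theorem of Faltings this means that `A` has potential complex multiplication, where the Mumford-Tate
group is a common `ℚ`-form.

Proof. The elements of `G_K` with a scalar `N`-th power, for a suitable `N`, contain a coset `H x₀` of an open subgroup
(Chebotarev, and noetherian descent on sets defined by polynomials). So the product of the conjugates of an element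
`h ∈ H` with `x₀ ^ i`, `i < N`, is scalar up to a fixed factor. Taking the logarithm we get a Lie algebra with an
automorphism of finite order for which all sums over orbits are scalar matrices. It is solvable by Kreknin's theorem,
and commutative by Lie's theorem and semisimplicity.
-/

set_option autoImplicit false

namespace Pool.Agent.Results.MP_e965d0_ag.ScalarPowers

open NumberField IsDedekindDomain Filter Matrix
open Pool.Agent.W401.Cheb (GK IsFrob dens)

/-- the subspace `S` is stable under the representation `ρ` -/
def Stable {Γ F : Type} [Group Γ] [Field F] {n : ℕ} (ρ : Γ →* GL (Fin n) F) (S : Submodule F (Fin n → F)) : Prop :=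
  ∀ g, ∀ s ∈ S, (ρ g : Matrix (Fin n) (Fin n) F) *ᵥ s ∈ S

/-- `ρ` is semisimple: every stable subspace has a stable complement -/
def Semisimple {Γ F : Type} [Group Γ] [Field F] {n : ℕ} (ρ : Γ →* GL (Fin n) F) : Prop :=
  ∀ S, Stable ρ S → ∃ S', Stable ρ S' ∧ IsCompl S S'

/-- some positive power of the matrix is a scalar matrix -/
def PowerScalar {F : Type} [Field F] {n : ℕ} (X : Matrix (Fin n) (Fin n) F) : Prop :=
  ∃ a : ℕ, 0 < a ∧ ∃ c : F, X ^ a = c • 1

/-- Let `ρ : G_K → GL_n(E)` be continuous and semisimple, where `E` is a complete ultrametric extension of `ℚ_l`.
Suppose that the places `v` such that `ρ σ` has a scalar positive power for all Frobenius elements `σ` at `v` have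
positive upper density (their proportion among the places of norm at most `N` is at least a fixed `δ > 0` for
arbitrarily large `N`). Then `ρ U` is commutative for an open normal subgroup `U`. -/
theorem result (K : Type) [Field K] [NumberField K] (l : ℕ) [Fact l.Prime] (E : Type) [NontriviallyNormedField E]
    [CompleteSpace E] [IsUltrametricDist E] [NormedAlgebra ℚ_[l] E] (n : ℕ) (ρ : GK K →* GL (Fin n) E)
    (hρ : Continuous ρ) (hss : Semisimple ρ) (δ : ℝ) (hδ : 0 < δ)
    (h : ∃ᶠ N in atTop, δ ≤ dens (fun v : HeightOneSpectrum (𝓞 K) =>
      ∀ σ, IsFrob v σ → PowerScalar (ρ σ : Matrix (Fin n) (Fin n) E)) N) :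
    ∃ U : Subgroup (GK K), U.Normal ∧ IsOpen (U : Set (GK K)) ∧ ∀ g ∈ U, ∀ g' ∈ U, ρ g * ρ g' = ρ g' * ρ g := by
  classical
  obtain ⟨U, hU, hUo, hcomm⟩ := Pool.Agent.X320.KR.potentially_abelian (p := l) ρ hρ hss _ hδ h
    (fun v hv σ hσ => hv σ hσ)
  refine ⟨U, hU, hUo, fun g hg g' hg' => ?_⟩
  rw [← map_mul, ← map_mul, hcomm g hg g' hg']

end Pool.Agent.Results.MP_e965d0_ag.ScalarPowers
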