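import Mathlib
import Pool.Agent.X292.ZP.Fin

/-!
# Common `ℚ`-form of the `ℓ`-adic monodromy groups: products of any abelian variety with abelian
varieties with toric places

Let `B` and `A i`, for `i` in a finite set `I`, be abelian varieties over a number field (or over a
finitely generated field of characteristic zero) and `n i ≥ 1` integers. There are three steps
towards a common `ℚ`-form for `X = B × ∏ (A i) ^ (n i)`: the monodromy groups of `B`; those of the
`A i`; and the independence of all these groups. Here `B` is arbitrary and nothing is assumed about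
its monodromy groups; we prove that `X` has a common `ℚ`-form if and only if `B` has one.

Let `Γ` be the absolute Galois group, `ρB ℓ` and `ρ ℓ i` its representations on the rational Tate
modules, with bases of the rational homology, which also give the matrices `ψB` and `ψ i` of Riemann
forms; `χ ℓ` is the cyclotomic character. So `sumRep n (ρB ℓ) (ρ ℓ)` is the representation on the
Tate module of `X`.

The hypotheses (`GoodAt`) for the primes `ℓ ≥ ℓ₀`:

* The `A i` have no endomorphisms besides `ℤ` over the algebraic closure and they are not isogenous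
  to each other (by Faltings this is `StronglyIrreducible` and `NoHom`).
* Each `A i` has a place `v` of bad reduction such that the defects of a generator `γ` of the tame
  inertia at `v` (after a finite extension) have no common prime factor, or one of them is two
  (`HasToricElement`); `B` and all `A j` have semistable reduction there. The defects are: the rank
  of `γ - 1` on the Tate module, this is the toric rank of the reduction; and the multiplicities of
  the nonzero eigenvalues of `(γ - 1) (γ' - 1)` for other such `γ'`, for instance conjugates of `γ`.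
* `B` is small at `i` (`IsSmall`) for all `i`: `ℚ_ℓ^alg ⊗ V_ℓ(B)` is the sum of stable subspaces `U`
  such that `s = rank (γ - 1 | U)`, for some place `v` with inertia generator `γ`, is small compared
  to the toric rank `r` of `A i` at `v`: `2 s ^ 2 < r (r + 1)`; for `U` with an alternating invariant
  form (with multiplier `χ`) `s < r`; for `U` with a symmetric form `s ≤ r`. Instead of `s`, `r` one
  can compare the dimensions of `U` and of `V_ℓ (A i)`.

For example it suffices that `B` has potentially good reduction at some place where `A i` has bad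
reduction (then `s = 0`), or that the toric rank of `B` is less than `0.7 r` there.

Then for `ℓ ≥ ℓ₀` the identity component of the Zariski closure of the image of each subgroup of
finite index on `V_ℓ(X)` consists of the blocks `(gB, gA)`, where `gB` is in the identity component
for `B` and the `gA i` are arbitrary symplectic similitudes with the multiplier of `gB` (first
part). Hence there is a common `ℚ`-form for `X` exactly if there is one for `B` (second part).

In the proof `W528.ZC` provides the Lie algebra of the Zariski closure, the nilpotent elements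
`γ - 1` generate an algebra that acts by the whole symplectic Lie algebra on each `V_ℓ (A i)`, and
the comparison of ranks or dimensions in Goursat's lemma shows that it contains the operators that
are zero on `V_ℓ (B)` and on the other `V_ℓ (A j)`.
-/

set_option autoImplicit false

namespace Pool.Agent.Results.MP_e965d0_ag.TimesAnyAbelianVariety

open Module Pool.Agent.X292.ZP
open Pool.Agent.W528.ZC (mapQ repM InIdentityComponent IsZeroOf)

/-- **The monodromy groups of the product of `B` with the powers of the `A i`.** -/
theorem result {I : Type} [Fintype I] [DecidableEq I] {κ : Type} [Fintype κ] [DecidableEq κ]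
    {ι : I → Type} [∀ i, Fintype (ι i)] [∀ i, DecidableEq (ι i)] {Γ : Type} [Group Γ]
    (n : I → ℕ) (hn : ∀ i, 0 < n i) (ψB : Matrix κ κ ℚ) (hψB : IsUnit ψB.det)
    (ψ : ∀ i, Matrix (ι i) (ι i) ℚ) (halt : ∀ i, (ψ i).transpose = -ψ i)
    (hψ : ∀ i, IsUnit (ψ i).det) (ρB : ∀ (ℓ : ℕ) [Fact ℓ.Prime], Γ →* Matrix κ κ ℚ_[ℓ])
    (ρ : ∀ (ℓ : ℕ) [Fact ℓ.Prime] (i : I), Γ →* Matrix (ι i) (ι i) ℚ_[ℓ])
    (χ : ∀ (ℓ : ℕ) [Fact ℓ.Prime], Γ →* ℚ_[ℓ]) (ℓ₀ : ℕ)
    (hgood : ∀ (ℓ : ℕ) [Fact ℓ.Prime], ℓ₀ ≤ ℓ → GoodAt ψB ψ ℓ (ρB ℓ) (ρ ℓ) (χ ℓ)) :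
    (∀ (ℓ : ℕ) [Fact ℓ.Prime], ℓ₀ ≤ ℓ → ∀ Γ' : Subgroup Γ, Γ'.FiniteIndex →
      ∀ g : Matrix (Idx κ ι n) (Idx κ ι n) (AlgebraicClosure ℚ_[ℓ]), IsUnit g.det →
        (InIdentityComponent ((sumRep n (ρB ℓ) (ρ ℓ)).comp Γ'.subtype) g ↔
          ∃ (gB : Matrix κ κ (AlgebraicClosure ℚ_[ℓ]))
            (gA : ∀ i, Matrix (ι i) (ι i) (AlgebraicClosure ℚ_[ℓ]))
            (c : AlgebraicClosure ℚ_[ℓ]), c ≠ 0 ∧ g = blocks n gB gA ∧
            InIdentityComponent (ρB ℓ) gB ∧
            gB.transpose * mapQ (AlgebraicClosure ℚ_[ℓ]) ψB * gB =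
              c • mapQ (AlgebraicClosure ℚ_[ℓ]) ψB ∧
            ∀ i, (gA i).transpose * mapQ (AlgebraicClosure ℚ_[ℓ]) (ψ i) * gA i =
              c • mapQ (AlgebraicClosure ℚ_[ℓ]) (ψ i))) ∧
    (HasCommonForm ρB ↔ HasCommonForm fun ℓ _ => sumRep n (ρB ℓ) (ρ ℓ)) :=
  ⟨fun ℓ _ hℓ Γ' hΓ' _ hg => one_prime hn hψB halt hψ ℓ (hgood ℓ hℓ) Γ' hΓ' hg,
    common_iff hn hψB halt hψ ρB ρ χ ℓ₀ hgood⟩

end Pool.Agent.Results.MP_e965d0_ag.TimesAnyAbelianVariety
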